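import Pool.Agent.Lib_helper87.FAM.Indep

/-!
# Translations on the function field, and the invariant derivation
-/

set_option autoImplicit false
set_option linter.unusedSectionVars false

namespace Pool.Agent.RH

open WeierstrassCurve.Affine UEG Polynomial WithZero GK

variable {k : Type*} [Field k] {W : WeierstrassCurve.Affine k}

/-- the generic point of the function field -/
lemma gen0 : Gen W (xK : W.FunctionField) yK := by
  refine ⟨eqK, ?_⟩
  rintro ⟨p, hp, h0⟩
  apply hp
  have h1 : inc (p • (1 : W.CoordinateRing) + (0 : k[X]) • CoordinateRing.mk W X) =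
      (0 : W.FunctionField) := by
    rw [inc_basis]
    simp only [eval₂_zero, zero_mul, add_zero]
    exact h0
  have h2 := inc_injective (h1.trans (map_zero inc).symm)
  exact (CoordinateRing.smul_basis_eq_zero h2).1

/-- homomorphisms out of the function field -/
lemma homK_ext {S : Type*} [CommRing S] {φ ψ : W.FunctionField →+* S}
    (hc : ∀ c : k, φ (cK c) = ψ (cK c)) (hx : φ xK = ψ xK) (hy : φ yK = ψ yK) : φ = ψ := by
  apply IsLocalization.ringHom_ext (nonZeroDivisors W.CoordinateRing)
  apply hom_ext
  · exact hc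
  · exact hx
  · exact hy

lemma homA_ext {S : Type*} [CommRing S] [Algebra k S] {φ ψ : W.FunctionField →ₐ[k] S}
    (hx : φ xK = ψ xK) (hy : φ yK = ψ yK) : φ = ψ := by
  have : (φ : W.FunctionField →+* S) = ψ :=
    homK_ext (fun c => (φ.commutes c).trans (ψ.commutes c).symm) hx hy
  exact AlgHom.ext fun w => congrArg (fun f : W.FunctionField →+* S => f w) this

section

variable [CharZero k] [DecidableEq k] [DecidableEq W.FunctionField]

/-- the generic point -/
noncomputable def z0 : (WF W.FunctionField W).Point := zz gen0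

/-- the constant points -/
noncomputable abbrev bK : W.Point →+ (WF W.FunctionField W).Point := bc W.FunctionField W

/-- the abscissa of a translate of the generic point -/
noncomputable def tX (a : W.Point) : W.FunctionField := (gen_add gen0 a).choose

noncomputable def tY (a : W.Point) : W.FunctionField := (gen_add gen0 a).choose_spec.choose

lemma tG (a : W.Point) : Gen W (tX a) (tY a) := (gen_add gen0 a).choose_spec.choose_spec.choose

lemma tZ (a : W.Point) : zz (tG a) = z0 + bK a :=
  (gen_add gen0 a).choose_spec.choose_spec.choose_spec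

/-- the translation by a point on the function field -/
noncomputable def tau (a : W.Point) : W.FunctionField →ₐ[k] W.FunctionField := ioA (tG a)

lemma tau_xK (a : W.Point) : tau a xK = tX a := io_x (tG a)

lemma tau_yK (a : W.Point) : tau a yK = tY a := io_y (tG a)

lemma tau_c (a : W.Point) (c : k) : tau a (cK c) = cK c := io_c (tG a) c

lemma tau_inj (a : W.Point) : Function.Injective (tau (W := W) a) := (tau a).toRingHom.injective

lemma tau_ne (a : W.Point) {w : W.FunctionField} (hw : w ≠ 0) : tau a w ≠ 0 := fun h =>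
  hw (tau_inj a (h.trans (map_zero _).symm))

lemma mp_z0 (a : W.Point) : mp (tau a) z0 = z0 + bK (W := W) a := by
  have := map_zz (tG a)
  rw [tZ] at this
  exact this

lemma mp_bK (φ : W.FunctionField →ₐ[k] W.FunctionField) (a : W.Point) :
    mp φ (bK (W := W) a) = bK a := map_bc φ a

/-- homomorphisms of the function field are determined by the image of the generic point -/
lemma ext_z0 {φ ψ : W.FunctionField →ₐ[k] W.FunctionField} (h : mp φ z0 = mp ψ z0) : φ = ψ := by
  have h' : (Point.some _ _ _ : (WF W.FunctionField W).Point) = Point.some _ _ _ := h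
  have h2 := Point.some.inj h'
  exact homA_ext h2.1 h2.2

lemma tau_zero (w : W.FunctionField) : tau (0 : W.Point) w = w := by
  have : tau (0 : W.Point) = AlgHom.id k W.FunctionField := by
    apply ext_z0
    rw [mp_z0, map_zero, add_zero]
    rcases z0 (W := W) with _ | ⟨x, y, h⟩ <;> rfl
  rw [this]; rfl

lemma mp_comp (φ ψ : W.FunctionField →ₐ[k] W.FunctionField) (p : (WF W.FunctionField W).Point) :
    mp (φ.comp ψ) p = mp φ (mp ψ p) := by
  rcases p with _ | ⟨x, y, h⟩ <;> rfl

lemma tau_tau (a b : W.Point) (w : W.FunctionField) : tau a (tau b w) = tau (a + b) w := by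
  have : (tau a).comp (tau b) = tau (W := W) (a + b) := by
    apply ext_z0
    rw [mp_comp, mp_z0, map_add, mp_z0, mp_bK, mp_z0, map_add, add_assoc]
  exact congrArg (fun f : W.FunctionField →ₐ[k] W.FunctionField => f w) this

/-! ### coordinates -/

/-- the slope -/
noncomputable def lam (p q : k) : W.FunctionField := (yK - cK q) / (xK - cK p)

lemma xp_ne (p : k) : (xK - cK p : W.FunctionField) ≠ 0 := ne_of_v (v_x_sub p)

lemma tX_some {p q : k} (h : W.Nonsingular p q) : tX (Point.some p q h) =
    lam p q ^ 2 + cK W.a₁ * lam p q - cK W.a₂ - xK - cK p ∧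
    tY (Point.some p q h) = -(lam p q * (tX (Point.some p q h) - xK) + yK) -
      cK W.a₁ * tX (Point.some p q h) - cK W.a₃ := by
  have e := tZ (Point.some p q h)
  have hx : (xK : W.FunctionField) ≠ algebraMap k W.FunctionField p := fun h' =>
    xp_ne (W := W) p (sub_eq_zero.mpr h')
  unfold z0 bK at e
  rw [bc_some] at e
  unfold zz at e
  rw [Point.add_of_X_ne hx, Point.some.injEq] at e
  have hs : (WF W.FunctionField W).slope xK (algebraMap k W.FunctionField p) yK
      (algebraMap k W.FunctionField q) = lam p q := slope_of_X_ne hx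
  rw [hs] at e
  refine ⟨e.1, ?_⟩
  rw [e.2]
  have e1 := e.1
  unfold WeierstrassCurve.Affine.addY WeierstrassCurve.Affine.negY
    WeierstrassCurve.Affine.negAddY
  rw [← e1]
  show -(lam p q * (tX (Point.some p q h) - xK) + yK) - cK W.a₁ * tX (Point.some p q h) -
    cK W.a₃ = _
  rfl

/-! ### the derivation -/

lemma dv_inv {w : W.FunctionField} (hw : w ≠ 0) : dv w⁻¹ = - dv w / w ^ 2 := by
  have h := dv_mul w w⁻¹
  rw [mul_inv_cancel₀ hw, dv_one] at h
  rw [eq_div_iff (pow_ne_zero 2 hw)]
  have : w⁻¹ * w = 1 := inv_mul_cancel₀ hw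
  linear_combination (-w) * h - dv w * this

lemma dv_div (w : W.FunctionField) {u : W.FunctionField} (hu : u ≠ 0) :
    dv (w / u) = (dv w * u - w * dv u) / u ^ 2 := by
  rw [div_eq_mul_inv, dv_mul, dv_inv hu, eq_div_iff (pow_ne_zero 2 hu)]
  field_simp
  ring

lemma dv_pow2 (w : W.FunctionField) : dv (w ^ 2) = 2 * w * dv w := by
  rw [pow_two, dv_mul]; ring

lemma dv_cmul (c : k) (w : W.FunctionField) : dv (cK c * w) = cK c * dv w := by
  rw [dv_mul, dv_c, mul_zero, add_zero]

lemma dv_lam {p q : k} (h : W.Nonsingular p q) :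
    dv (lam p q : W.FunctionField) = xK - tX (Point.some p q h) := by
  have hx := xp_ne (W := W) p
  have e0 : (yK : W.FunctionField) ^ 2 + cK W.a₁ * xK * yK + cK W.a₃ * yK =
    xK ^ 3 + cK W.a₂ * xK ^ 2 + cK W.a₄ * xK + cK W.a₆ := eqK
  have e1 : (cK q : W.FunctionField) ^ 2 + cK W.a₁ * cK p * cK q + cK W.a₃ * cK q =
      cK p ^ 3 + cK W.a₂ * cK p ^ 2 + cK W.a₄ * cK p + cK W.a₆ := by
    have := (equation_iff _ _).mp h.1
    have := congrArg (cK (W := W)) this
    simpa only [map_add, map_mul, map_pow] using this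
  rw [(tX_some h).1]
  unfold lam
  rw [dv_div _ hx, dv_sub, dv_sub, dv_c, dv_c, dv_x, dv_y, sub_zero, sub_zero]
  unfold dx dy
  field_simp
  linear_combination e1 - e0

omit [DecidableEq k] [DecidableEq W.FunctionField] in
lemma dx_ne0 : (UEG.dx : W.FunctionField) ≠ 0 := by
  have h2 : (2 : k) ≠ 0 := two_ne_zero
  have e : (UEG.dx : W.FunctionField) =
      cK 2 * (yK - cK (-(W.a₁ / 2)) * xK - cK (-(W.a₃ / 2))) := by
    have e1 : (cK W.a₁ : W.FunctionField) = cK 2 * cK (W.a₁ / 2) := by
      rw [← map_mul, mul_div_cancel₀ _ h2]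
    have e3 : (cK W.a₃ : W.FunctionField) = cK 2 * cK (W.a₃ / 2) := by
      rw [← map_mul, mul_div_cancel₀ _ h2]
    have e2 : (cK 2 : W.FunctionField) = 2 := map_ofNat _ 2
    unfold UEG.dx
    rw [e1, e3, map_neg, map_neg, e2]
    ring
  rw [e]
  exact mul_ne_zero ((_root_.map_ne_zero _).mpr h2) (ne_of_v (v_line _ _))

/-- **the derivation commutes with the translations** -/
theorem dv_tau (a : W.Point) (w : W.FunctionField) : dv (tau a w) = tau a (dv w) := by
  rcases a with _ | ⟨p, q, h⟩
  · have h0 : ∀ w : W.FunctionField, tau (Point.zero : W.Point) w = w := tau_zero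
    rw [h0, h0]
  set a : W.Point := Point.some p q h with ha
  -- the coordinates
  have hX : dv (tX a) = 2 * tY a + cK W.a₁ * tX a + cK W.a₃ := by
    obtain ⟨e1, e2⟩ := tX_some h
    have e3 := dv_lam h
    have e4 : dv (tX a) = 2 * lam p q * dv (lam p q : W.FunctionField) +
        cK W.a₁ * dv (lam p q : W.FunctionField) - dx := by
      rw [e1, dv_sub, dv_sub, dv_sub, dv_add, dv_pow2, dv_cmul, dv_c, dv_c, dv_x]
      ring
    rw [e4, e3, e2]
    unfold dx
    ring
  have hG := (tG a).eq
  have hE : tY a ^ 2 + cK W.a₁ * tX a * tY a + cK W.a₃ * tY a =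
    tX a ^ 3 + cK W.a₂ * tX a ^ 2 + cK W.a₄ * tX a + cK W.a₆ := hG
  have hY : dv (tY a) = 3 * tX a ^ 2 + 2 * cK W.a₂ * tX a + cK W.a₄ - cK W.a₁ * tY a := by
    have h2 := congrArg dv hE
    have e3 : dv (tX a ^ 3) = 3 * tX a ^ 2 * dv (tX a) := by
      rw [pow_succ, dv_mul, dv_pow2]; ring
    simp only [dv_add, dv_mul, dv_pow2, dv_c, e3, mul_zero, add_zero] at h2
    have hD : 2 * tY a + cK W.a₁ * tX a + cK W.a₃ ≠ 0 := by
      have : 2 * tY a + cK W.a₁ * tX a + cK W.a₃ = tau a dx := by
        unfold dx
        simp only [map_add, map_mul, tau_c, tau_xK, tau_yK, map_ofNat]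
      rw [this]
      exact tau_ne _ dx_ne0
    apply mul_left_cancel₀ hD
    rw [hX] at h2
    linear_combination h2
  -- two homomorphisms to the dual numbers
  let Φ : W.FunctionField →+* T W :=
    { toFun := fun w => TrivSqZeroExt.inl (tau a w) + TrivSqZeroExt.inr (tau a (dv w))
      map_one' := by rw [dv_one, map_one, map_zero]; simp
      map_zero' := by
        have : dv (0 : W.FunctionField) = 0 := by
          have := dv_sub (1 : W.FunctionField) 1
          rwa [sub_self, sub_self] at this
        rw [this, map_zero]; simp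
      map_mul' := fun u w => by
        rw [dv_mul, map_mul, map_add, map_mul, map_mul]
        apply TrivSqZeroExt.ext
        · simp
        · simp
          ring
      map_add' := fun u w => by
        rw [dv_add, map_add, map_add]
        apply TrivSqZeroExt.ext
        · simp
        · simp }
  have e : (ph (W := W)).comp ((tau a : W.FunctionField →ₐ[k] W.FunctionField) :
      W.FunctionField →+* W.FunctionField) = Φ := by
    have fs : ∀ w, (ph (W := W) w) = TrivSqZeroExt.inl w + TrivSqZeroExt.inr (dv w) := by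
      intro w
      apply TrivSqZeroExt.ext
      · simp [fst_ph]
      · simp [dv]
    have key : ∀ w : W.FunctionField, dv (tau a w) = tau a (dv w) →
        (ph (W := W)).comp ((tau a : W.FunctionField →ₐ[k] W.FunctionField) :
          W.FunctionField →+* W.FunctionField) w = Φ w := by
      intro w hw
      show ph (tau a w) = TrivSqZeroExt.inl (tau a w) + TrivSqZeroExt.inr (tau a (dv w))
      rw [fs, hw]
    apply homK_ext
    · intro c
      apply key
      rw [tau_c, dv_c, map_zero]
    · apply key
      rw [tau_xK, dv_x, hX]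
      unfold UEG.dx
      simp only [map_add, map_mul, tau_c, tau_xK, tau_yK, map_ofNat]
    · apply key
      rw [tau_yK, dv_y, hY]
      unfold UEG.dy
      simp only [map_add, map_sub, map_mul, map_pow, tau_c, tau_xK, tau_yK, map_ofNat]
  have h1 := congrArg (fun f : W.FunctionField →+* T W => TrivSqZeroExt.snd (f w)) e
  have h2 : TrivSqZeroExt.snd (TrivSqZeroExt.inl (tau a w) + TrivSqZeroExt.inr (tau a (dv w)) :
    T W) = tau a (dv w) := by simp
  exact h1.trans h2

end

end Pool.Agent.RH
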