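import Pool.Agent.Lib_helper76.UEG.C

/-!
# Residues and leading coefficients at infinity
-/

set_option autoImplicit false
set_option linter.unusedSectionVars false

namespace Pool.Agent.RH

open WeierstrassCurve.Affine UEG Polynomial WithZero

variable {k : Type*} [Field k] {W : WeierstrassCurve.Affine k}

/-- the residue of `w` is `c` -/
def Rs (w : W.FunctionField) (c : k) : Prop := v (W := W) (w - cK c) < 1

lemma v_cle (c : k) : v (W := W) (cK c) ≤ 1 := by
  rcases eq_or_ne c 0 with rfl | h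
  · rw [map_zero, map_zero]; exact zero_le_one
  · exact (v_c h).le

section

variable {u w : W.FunctionField} {a b : k}

lemma Rs.le (h : Rs w a) : v (W := W) w ≤ 1 := by
  have : w = (w - cK a) + cK a := by ring
  rw [this]
  exact (Valuation.map_add _ _ _).trans (max_le (le_of_lt h) (v_cle a))

lemma Rs.add (h : Rs u a) (h' : Rs w b) : Rs (u + w) (a + b) := by
  unfold Rs
  have : u + w - cK (a + b) = (u - cK a) + (w - cK b) := by rw [map_add]; ring
  rw [this]
  exact lt_of_le_of_lt (Valuation.map_add _ _ _) (max_lt h h')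

lemma Rs.mul (h : Rs u a) (h' : Rs w b) : Rs (u * w) (a * b) := by
  unfold Rs
  have : u * w - cK (a * b) = u * (w - cK b) + (u - cK a) * cK b := by rw [map_mul]; ring
  rw [this]
  refine lt_of_le_of_lt (Valuation.map_add _ _ _) (max_lt ?_ ?_)
  · rw [map_mul]
    exact lt_of_le_of_lt (mul_le_mul' h.le le_rfl) (by rw [one_mul]; exact h')
  · rw [map_mul]
    exact lt_of_le_of_lt (mul_le_mul' le_rfl (v_cle b)) (by rw [mul_one]; exact h)

lemma rs_c (c : k) : Rs (cK c : W.FunctionField) c := by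
  unfold Rs; rw [sub_self, map_zero]; exact zero_lt_one

lemma rs_one : Rs (1 : W.FunctionField) (1 : k) := by
  have := rs_c (W := W) (1 : k)
  rwa [map_one] at this

lemma rs_of_lt (h : v (W := W) w < 1) : Rs w 0 := by
  unfold Rs; rwa [map_zero, sub_zero]

lemma Rs.ne (h : Rs w a) (hw : v (W := W) w = 1) : a ≠ 0 := by
  rintro rfl
  unfold Rs at h
  rw [map_zero, sub_zero, hw] at h
  exact lt_irrefl _ h

lemma Rs.inv (h : Rs w a) (hw : v (W := W) w = 1) : Rs w⁻¹ a⁻¹ := by
  have ha := h.ne hw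
  unfold Rs at *
  have hw0 : w ≠ 0 := by rintro rfl; rw [map_zero] at hw; exact zero_ne_one hw
  have ha0 : (cK a : W.FunctionField) ≠ 0 := (_root_.map_ne_zero _).mpr ha
  have : w⁻¹ - cK a⁻¹ = -(w - cK a) * w⁻¹ * (cK a)⁻¹ := by
    rw [map_inv₀]; field_simp; ring
  rw [this, map_mul, map_mul, Valuation.map_neg, map_inv₀, map_inv₀, hw, v_c ha, inv_one, mul_one,
    mul_one]
  exact h

lemma Rs.pow (h : Rs w a) (n : ℕ) : Rs (w ^ n) (a ^ n) := by
  induction n with
  | zero => rw [pow_zero, pow_zero]; exact rs_one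
  | succ n ih => rw [pow_succ, pow_succ]; exact ih.mul h

lemma Rs.unique (h : Rs w a) (h' : Rs w b) : a = b := by
  by_contra hne
  have h1 : v (W := W) (cK (a - b)) = 1 := v_c (sub_ne_zero.mpr hne)
  have e : (cK (a - b) : W.FunctionField) = (w - cK b) - (w - cK a) := by rw [map_sub]; ring
  rw [e] at h1
  have := lt_of_le_of_lt (Valuation.map_sub v (w - cK b) (w - cK a)) (max_lt h' h)
  rw [h1] at this
  exact lt_irrefl _ this

end

/-! ### the parameter -/

/-- the parameter -/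
noncomputable def pi0 : W.FunctionField := xK / yK

lemma v_pi0 : v (W := W) pi0 = exp (-1) := by
  unfold pi0
  rw [map_div₀, v_x, v_y, ← exp_sub]
  rfl

lemma pi0_ne : (pi0 : W.FunctionField) ≠ 0 := ne_of_v v_pi0

lemma v_pi0_lt : v (W := W) pi0 < 1 := by
  rw [v_pi0, ← exp_zero, exp_lt_exp]; norm_num

lemma eq3 : (xK : W.FunctionField) ^ 3 - yK ^ 2 = cK W.a₁ * xK * yK + cK W.a₃ * yK -
    cK W.a₂ * xK ^ 2 - cK W.a₄ * xK - cK W.a₆ := by
  have h : (yK : W.FunctionField) ^ 2 + cK W.a₁ * xK * yK + cK W.a₃ * yK =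
      xK ^ 3 + cK W.a₂ * xK ^ 2 + cK W.a₄ * xK + cK W.a₆ := eqK (W := W)
  linear_combination -h

lemma v_mono (c : k) {u : W.FunctionField} {i j : ℤ} (h : v (W := W) u ≤ exp i) (hij : i ≤ j) :
    v (W := W) (cK c * u) ≤ exp j := by
  rw [map_mul]
  refine (mul_le_mul' (v_cle c) h).trans ?_
  rw [one_mul]
  exact exp_le_exp.mpr hij

lemma v_eq3 : v (W := W) ((xK : W.FunctionField) ^ 3 - yK ^ 2) ≤ exp 5 := by
  rw [eq3]
  refine (Valuation.map_sub _ _ _).trans (max_le ((Valuation.map_sub _ _ _).trans (max_le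
    ((Valuation.map_sub _ _ _).trans (max_le ((Valuation.map_add _ _ _).trans
      (max_le ?_ ?_)) ?_)) ?_)) ?_)
  · rw [mul_assoc]
    exact v_mono _ (i := 5) (by rw [map_mul, v_x, v_y, ← exp_add]; norm_num) le_rfl
  · exact v_mono _ v_y.le (by norm_num)
  · exact v_mono _ (i := 4) (by rw [map_pow, v_x, pow_two, ← exp_add]; norm_num) (by norm_num)
  · exact v_mono _ v_x.le (by norm_num)
  · refine (v_cle _).trans ?_
    rw [← exp_zero]; exact exp_le_exp.mpr (by norm_num)

/-- `x³ / y²` has residue one -/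
lemma rs_q : Rs (xK ^ 3 / yK ^ 2 : W.FunctionField) (1 : k) := by
  unfold Rs
  have hy : (yK : W.FunctionField) ≠ 0 := ne_of_v v_y
  have e : (xK ^ 3 / yK ^ 2 - cK 1 : W.FunctionField) = (xK ^ 3 - yK ^ 2) / yK ^ 2 := by
    rw [map_one]; field_simp
  rw [e, map_div₀, map_pow, v_y]
  have h0 : (0 : WithZero (Multiplicative ℤ)) < exp 3 ^ 2 :=
    zero_lt_iff.mpr (pow_ne_zero 2 exp_ne_zero)
  rw [div_lt_one₀ h0]
  refine lt_of_le_of_lt v_eq3 ?_
  rw [pow_two, ← exp_add, exp_lt_exp]; norm_num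

lemma x_pi : (xK * pi0 ^ 2 : W.FunctionField) = xK ^ 3 / yK ^ 2 := by
  have hy : (yK : W.FunctionField) ≠ 0 := ne_of_v v_y
  unfold pi0; field_simp

lemma y_pi : (yK * pi0 ^ 3 : W.FunctionField) = xK ^ 3 / yK ^ 2 := by
  have hy : (yK : W.FunctionField) ≠ 0 := ne_of_v v_y
  unfold pi0; field_simp

/-- polynomials in `x` -/
lemma rs_pol (p : k[X]) {n : ℕ} (hn : 2 * p.natDegree ≤ n) :
    ∃ c, Rs (p.eval₂ cK xK * pi0 ^ n : W.FunctionField) c := by
  have key : ∀ i ∈ Finset.range (p.natDegree + 1), ∃ c,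
      Rs (cK (p.coeff i) * xK ^ i * pi0 ^ n : W.FunctionField) c := by
    intro i hi
    rw [Finset.mem_range] at hi
    have hi2 : 2 * i ≤ n := by omega
    obtain ⟨m, rfl⟩ := Nat.exists_eq_add_of_le hi2
    have e : (cK (p.coeff i) * xK ^ i * pi0 ^ (2 * i + m) : W.FunctionField) =
        cK (p.coeff i) * (xK ^ 3 / yK ^ 2) ^ i * pi0 ^ m := by
      rw [← x_pi, mul_pow, pow_add, pow_mul]; ring
    rw [e]
    have h1 : Rs (pi0 : W.FunctionField) (0 : k) := rs_of_lt v_pi0_lt
    exact ⟨_, ((rs_c _).mul (rs_q.pow i)).mul (h1.pow m)⟩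
  rw [eval₂_eq_sum_range, Finset.sum_mul]
  choose! c hc using key
  refine ⟨∑ i ∈ Finset.range (p.natDegree + 1), c i, ?_⟩
  have : ∀ s : Finset ℕ, s ⊆ Finset.range (p.natDegree + 1) →
      Rs (∑ i ∈ s, cK (p.coeff i) * xK ^ i * pi0 ^ n : W.FunctionField) (∑ i ∈ s, c i) := by
    intro s
    induction s using Finset.induction_on with
    | empty =>
      intro _
      rw [Finset.sum_empty, Finset.sum_empty]
      have := rs_c (W := W) (0 : k)
      rwa [map_zero] at this
    | insert j s hj ih =>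
      intro hs
      rw [Finset.sum_insert hj, Finset.sum_insert hj]
      exact (hc j (hs (Finset.mem_insert_self _ _))).add
        (ih fun x hx => hs (Finset.mem_insert_of_mem hx))
  exact this _ (Finset.Subset.refl _)

lemma deg_le_of {p : k[X]} {m n : ℕ} (h : 2 • p.degree + (m : WithBot ℕ) ≤ (n : WithBot ℕ))
    (hp : p ≠ 0) : 2 * p.natDegree + m ≤ n := by
  rw [degree_eq_natDegree hp, two_nsmul] at h
  have h1 : ((p.natDegree + p.natDegree + m : ℕ) : WithBot ℕ) ≤ (n : WithBot ℕ) := by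
    push_cast; exact h
  have h2 : p.natDegree + p.natDegree + m ≤ n := by exact_mod_cast h1
  omega

/-- regular functions -/
lemma rs_inc (r : W.CoordinateRing) {n : ℕ} (hn : v (W := W) (inc r) = exp (n : ℤ)) :
    ∃ c, Rs (inc r * pi0 ^ n : W.FunctionField) c := by
  obtain ⟨p, q, rfl⟩ := CoordinateRing.exists_smul_basis_eq r
  have hr : (p • (1 : W.CoordinateRing) + q • CoordinateRing.mk W X) ≠ 0 := by
    intro h0
    rw [h0, map_zero, map_zero] at hn
    exact exp_ne_zero hn.symm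
  obtain ⟨m, hm, hv⟩ := vR_cases hr
  rw [v_inc, hv] at hn
  have hmn : m = n := by have := exp_injective hn; exact_mod_cast this
  subst hmn
  rw [D_basis] at hm
  rw [inc_basis, add_mul]
  have h1 : ∃ c, Rs (p.eval₂ cK xK * pi0 ^ m : W.FunctionField) c := by
    rcases eq_or_ne p 0 with rfl | hp
    · refine ⟨0, ?_⟩
      rw [eval₂_zero, zero_mul]
      have := rs_c (W := W) (0 : k)
      rwa [map_zero] at this
    · apply rs_pol
      have := deg_le_of (p := p) (m := 0) (n := m) (by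
        rw [← hm]; push_cast; rw [add_zero]; exact le_max_left _ _) hp
      omega
  have h2 : ∃ c, Rs (q.eval₂ cK xK * yK * pi0 ^ m : W.FunctionField) c := by
    rcases eq_or_ne q 0 with rfl | hq
    · refine ⟨0, ?_⟩
      rw [eval₂_zero, zero_mul, zero_mul]
      have := rs_c (W := W) (0 : k)
      rwa [map_zero] at this
    · have h3 := deg_le_of (p := q) (m := 3) (n := m) (by
        rw [← hm]; exact le_max_right _ _) hq
      obtain ⟨l, rfl⟩ := Nat.exists_eq_add_of_le (show 3 ≤ m by omega)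
      obtain ⟨c, hc⟩ := rs_pol (W := W) q (n := l) (by omega)
      refine ⟨c * 1, ?_⟩
      · have e : (q.eval₂ cK xK * yK * pi0 ^ (3 + l) : W.FunctionField) =
            (q.eval₂ cK xK * pi0 ^ l) * (xK ^ 3 / yK ^ 2) := by
          rw [← y_pi, pow_add]; ring
        rw [e]
        exact hc.mul rs_q
  obtain ⟨c1, h1⟩ := h1
  obtain ⟨c2, h2⟩ := h2
  exact ⟨c1 + c2, h1.add h2⟩

/-- **the residue field at infinity is the field of constants** -/
theorem exists_rs {w : W.FunctionField} (hw : v (W := W) w = 1) : ∃ c : k, c ≠ 0 ∧ Rs w c := by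
  obtain ⟨r, s, hs, rfl⟩ := IsFractionRing.div_surjective (A := W.CoordinateRing) w
  have hs0 : s ≠ 0 := nonZeroDivisors.ne_zero hs
  have hr0 : r ≠ 0 := by
    rintro rfl
    rw [map_zero, zero_div, map_zero] at hw
    exact zero_ne_one hw
  obtain ⟨n, -, hn⟩ := vR_cases hr0
  obtain ⟨m, -, hm⟩ := vR_cases hs0
  rw [← v_inc] at hn hm
  have hmn : n = m := by
    have h1 : v (W := W) (inc r / inc s) = 1 := hw
    rw [map_div₀, hn, hm, ← exp_sub, ← exp_zero] at h1
    have := exp_injective h1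
    omega
  subst hmn
  obtain ⟨c, hc⟩ := rs_inc r hn
  obtain ⟨d, hd⟩ := rs_inc s hm
  have vp : v (W := W) (pi0 ^ n) = exp (-(n : ℤ)) := by
    rw [map_pow, v_pi0, ← exp_nsmul]; congr 1; simp
  have vr : v (W := W) (inc r * pi0 ^ n) = 1 := by
    rw [map_mul, hn, vp, ← exp_add, ← exp_zero]; congr 1; ring
  have vs : v (W := W) (inc s * pi0 ^ n) = 1 := by
    rw [map_mul, hm, vp, ← exp_add, ← exp_zero]; congr 1; ring
  have hc0 := hc.ne vr
  have hd0 := hd.ne vs
  refine ⟨c * d⁻¹, mul_ne_zero hc0 (inv_ne_zero hd0), ?_⟩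
  have e : (inc r / inc s : W.FunctionField) = (inc r * pi0 ^ n) * (inc s * pi0 ^ n)⁻¹ := by
    have hi : (inc s : W.FunctionField) ≠ 0 := by
      intro h0; exact hs0 (inc_injective (h0.trans (map_zero _).symm))
    have := pow_ne_zero n (pi0_ne (W := W))
    field_simp
  show Rs (inc r / inc s : W.FunctionField) _
  rw [e]
  exact hc.mul (hd.inv vs)

end Pool.Agent.RH
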