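import Pool.Agent.Lib_helper76.RH.A
import Pool.Agent.Lib_helper76.RH.B

/-!
# The derivation and the translations at infinity
-/

set_option autoImplicit false
set_option linter.unusedSectionVars false

namespace Pool.Agent.RH

open WeierstrassCurve.Affine UEG Polynomial WithZero GK

variable {k : Type*} [Field k] {W : WeierstrassCurve.Affine k}

lemma exists_exp {w : W.FunctionField} (hw : w ≠ 0) : ∃ n : ℤ, v (W := W) w = exp n :=
  ⟨log (v (W := W) w), (exp_log ((Valuation.ne_zero_iff _).mpr hw)).symm⟩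

lemma v_dv_le (w : W.FunctionField) : v (W := W) (dv w) ≤ v (W := W) w * exp 1 := by
  rcases eq_or_ne w 0 with rfl | hw
  · have : dv (0 : W.FunctionField) = 0 := by
      have := dv_sub (1 : W.FunctionField) 1
      rwa [sub_self, sub_self] at this
    rw [this, map_zero, zero_mul]
  · have h := v_ld hw
    unfold ld at h
    rw [map_div₀, div_le_iff₀ (zero_lt_iff.mpr ((Valuation.ne_zero_iff _).mpr hw))] at h
    rwa [mul_comm] at h

/-- the derivative of a regular function is regular -/
lemma v_dv_reg {w : W.FunctionField} (hw : v (W := W) w ≤ 1) : v (W := W) (dv w) ≤ 1 := by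
  have key : ∃ c : k, v (W := W) (w - cK c) < 1 := by
    rcases eq_or_lt_of_le hw with h | h
    · obtain ⟨c, -, hc⟩ := exists_rs h
      exact ⟨c, hc⟩
    · exact ⟨0, by rwa [map_zero, sub_zero]⟩
  obtain ⟨c, hc⟩ := key
  have e : dv w = dv (w - cK c) := by rw [dv_sub, dv_c, sub_zero]
  rw [e]
  rcases eq_or_ne (w - cK c) 0 with h0 | h0
  · rw [h0]
    have : dv (0 : W.FunctionField) = 0 := by
      have := dv_sub (1 : W.FunctionField) 1
      rwa [sub_self, sub_self] at this
    rw [this, map_zero]; exact zero_le_one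
  · obtain ⟨n, hn⟩ := exists_exp h0
    refine (v_dv_le _).trans ?_
    rw [hn] at hc ⊢
    rw [← exp_zero, exp_lt_exp] at hc
    rw [← exp_add, ← exp_zero]
    exact exp_le_exp.mpr (by omega)

/-- the derivative of the parameter -/
lemma v_ld_pi0 : v (W := W) (ld (pi0 : W.FunctionField)) = exp 1 := by
  have hx : (xK : W.FunctionField) ≠ 0 := ne_of_v v_x
  have hy : (yK : W.FunctionField) ≠ 0 := ne_of_v v_y
  have e : ld (pi0 : W.FunctionField) = (dx * yK - xK * dy) / (xK * yK) := by
    unfold pi0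
    rw [ld_div hx hy]
    unfold ld
    rw [dv_x, dv_y]
    field_simp
  have h0 : (yK : W.FunctionField) ^ 2 + cK W.a₁ * xK * yK + cK W.a₃ * yK =
      xK ^ 3 + cK W.a₂ * xK ^ 2 + cK W.a₄ * xK + cK W.a₆ := eqK (W := W)
  have e2 : (dx * yK - xK * dy : W.FunctionField) = - xK ^ 3 + (- cK W.a₃ * yK + cK W.a₄ * xK +
      2 * cK W.a₆) := by
    unfold dx dy
    linear_combination 2 * h0
  rw [e, map_div₀, e2]
  have h1 : v (W := W) (- cK W.a₃ * yK + cK W.a₄ * xK + 2 * cK W.a₆) < v (W := W) (- xK ^ 3) := by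
    rw [Valuation.map_neg, map_pow, v_x, ← exp_nsmul]
    have e3 : (- cK W.a₃ * yK + cK W.a₄ * xK + 2 * cK W.a₆ : W.FunctionField) =
        cK (-W.a₃) * yK + cK W.a₄ * xK + cK (2 * W.a₆) := by
      rw [map_neg, map_mul, map_ofNat]
    rw [e3]
    refine lt_of_le_of_lt (b := exp 3) ?_ (exp_lt_exp.mpr (by norm_num))
    refine (Valuation.map_add _ _ _).trans (max_le ((Valuation.map_add _ _ _).trans
      (max_le ?_ ?_)) ?_)
    · exact v_mono _ v_y.le le_rfl
    · exact v_mono _ v_x.le (by norm_num)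
    · refine (v_cle _).trans ?_
      rw [← exp_zero]; exact exp_le_exp.mpr (by norm_num)
  rw [Valuation.map_add_eq_of_lt_left _ h1, Valuation.map_neg, map_pow, v_x, map_mul, v_x, v_y,
    ← exp_nsmul, ← exp_add, ← exp_sub]
  congr 1

/-- **the derivation raises the order of a pole by one** -/
theorem v_dv_eq {w : W.FunctionField} {n : ℤ} (hn : v (W := W) w = exp n) (h : (n : k) ≠ 0) :
    v (W := W) (dv w) = exp (n + 1) := by
  have hw : w ≠ 0 := ne_of_v hn
  have hp := pi0_ne (W := W)
  have hpn : (pi0 ^ n : W.FunctionField) ≠ 0 := zpow_ne_zero n hp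
  set u : W.FunctionField := w * pi0 ^ n with hu
  have hvp : v (W := W) (pi0 ^ n) = exp (-n) := by
    rw [map_zpow₀, v_pi0, ← exp_zsmul]; congr 1; simp
  have hvu : v (W := W) u = 1 := by
    rw [hu, map_mul, hn, hvp, ← exp_add, ← exp_zero]; congr 1; ring
  have hu0 : u ≠ 0 := mul_ne_zero hw hpn
  have e1 : w = u / pi0 ^ n := by rw [hu]; field_simp
  have e2 : ld w = ld u - (n : W.FunctionField) * ld pi0 := by
    rw [e1, ld_div hu0 hpn, ld_zpow hp]
  have h1 : v (W := W) (ld u) ≤ 1 := by
    unfold ld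
    rw [map_div₀, hvu, div_one]
    exact v_dv_reg hvu.le
  have h2 : v (W := W) ((n : W.FunctionField) * ld pi0) = exp 1 := by
    have : (n : W.FunctionField) = cK (n : k) := (map_intCast _ n).symm
    rw [map_mul, this, v_c h, one_mul, v_ld_pi0]
  have h3 : v (W := W) (ld w) = exp 1 := by
    rw [e2, Valuation.map_sub_eq_of_lt_right _ (by
      rw [h2]
      refine lt_of_le_of_lt h1 ?_
      rw [← exp_zero, exp_lt_exp]; norm_num), h2]
  have e3 : dv w = ld w * w := by unfold ld; field_simp
  rw [e3, map_mul, h3, hn, ← exp_add]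
  congr 1; ring

end Pool.Agent.RH
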