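import Pool.Agent.Lib_helper76.RH.C

/-!
# Translations at infinity
-/

set_option autoImplicit false
set_option linter.unusedSectionVars false

namespace Pool.Agent.RH

open WeierstrassCurve.Affine UEG Polynomial WithZero GK

variable {k : Type*} [Field k] {W : WeierstrassCurve.Affine k}
variable [CharZero k] [DecidableEq k] [DecidableEq W.FunctionField]

section some

variable {p q : k} (h : W.Nonsingular p q)

/-- the abscissa of the translate -/
lemma tX_sub : (xK - cK p) ^ 2 * (tX (Point.some p q h) - cK p) =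
    -(cK (2 * q + W.a₁ * p + W.a₃) * yK) + cK (3 * p ^ 2 + 2 * W.a₂ * p + W.a₄ - W.a₁ * q) * xK +
      cK (W.a₆ + q ^ 2 + W.a₁ * p * q - 2 * p ^ 3 - W.a₂ * p ^ 2) := by
  have hx := xp_ne (W := W) p
  have e0 : (yK : W.FunctionField) ^ 2 + cK W.a₁ * xK * yK + cK W.a₃ * yK =
    xK ^ 3 + cK W.a₂ * xK ^ 2 + cK W.a₄ * xK + cK W.a₆ := eqK
  rw [(tX_some h).1]
  unfold lam
  simp only [map_add, map_sub, map_mul, map_pow, map_ofNat]
  field_simp
  linear_combination e0

lemma v_sq (p : k) : v (W := W) ((xK - cK p) ^ 2) = exp 4 := by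
  rw [map_pow, v_x_sub, ← exp_nsmul]; rfl

/-- the order of `x - x(Q)` at `Q` -/
lemma v_tX : (2 * q + W.a₁ * p + W.a₃ ≠ 0 ∧ v (W := W) (tX (Point.some p q h) - cK p) = exp (-1)) ∨
    (2 * q + W.a₁ * p + W.a₃ = 0 ∧ v (W := W) (tX (Point.some p q h) - cK p) = exp (-2)) := by
  have e := congrArg (v (W := W)) (tX_sub h)
  rw [map_mul, v_sq] at e
  set ψ := 2 * q + W.a₁ * p + W.a₃ with hψ
  set μ := 3 * p ^ 2 + 2 * W.a₂ * p + W.a₄ - W.a₁ * q with hμ
  set ν := W.a₆ + q ^ 2 + W.a₁ * p * q - 2 * p ^ 3 - W.a₂ * p ^ 2 with hν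
  have h4 : (exp 4 : WithZero (Multiplicative ℤ)) ≠ 0 := exp_ne_zero
  by_cases h0 : ψ = 0
  · right
    refine ⟨h0, ?_⟩
    have hμ0 : μ ≠ 0 := by
      have h2 := ((nonsingular_iff' _ _).mp h).2
      rcases h2 with h2 | h2
      · intro h3
        apply h2
        linear_combination -h3
      · exact absurd h0 h2
    have e1 : -(cK ψ * yK) + cK μ * xK + cK ν = cK μ * (xK - cK (-(ν / μ)) : W.FunctionField) := by
      have e2 : (cK ν : W.FunctionField) = cK μ * cK (ν / μ) := by
        rw [← map_mul, mul_div_cancel₀ _ hμ0]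
      rw [h0, e2, map_zero, map_neg]; ring
    rw [e1, map_mul, v_c hμ0, v_x_sub, one_mul] at e
    apply mul_left_cancel₀ h4
    rw [e, ← exp_add]; rfl
  · left
    refine ⟨h0, ?_⟩
    have e1 : -(cK ψ * yK) + cK μ * xK + cK ν =
        -cK ψ * (yK - cK (μ / ψ) * xK - cK (ν / ψ) : W.FunctionField) := by
      have e2 : (cK ν : W.FunctionField) = cK ψ * cK (ν / ψ) := by
        rw [← map_mul, mul_div_cancel₀ _ h0]
      have e3 : (cK μ : W.FunctionField) = cK ψ * cK (μ / ψ) := by
        rw [← map_mul, mul_div_cancel₀ _ h0]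
      rw [e2, e3]; ring
    rw [e1, map_mul, Valuation.map_neg, v_c h0, v_line, one_mul] at e
    apply mul_left_cancel₀ h4
    rw [e, ← exp_add]; rfl

/-- the ordinate of the translate -/
lemma tY_sub : tY (Point.some p q h) - cK q = -(lam p q * (tX (Point.some p q h) - cK p) +
    cK (2 * q + W.a₁ * p + W.a₃)) - cK W.a₁ * (tX (Point.some p q h) - cK p) := by
  have hx := xp_ne (W := W) p
  have e1 : lam p q * (xK - cK p) = (yK - cK q : W.FunctionField) := by
    unfold lam; rw [div_mul_cancel₀ _ hx]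
  rw [(tX_some h).2]
  simp only [map_add, map_mul, map_ofNat]
  linear_combination e1

lemma v_tY : v (W := W) (tY (Point.some p q h) - cK q) < 1 := by
  set ψ := 2 * q + W.a₁ * p + W.a₃ with hψ
  set μ := 3 * p ^ 2 + 2 * W.a₂ * p + W.a₄ - W.a₁ * q with hμ
  set ν := W.a₆ + q ^ 2 + W.a₁ * p * q - 2 * p ^ 3 - W.a₂ * p ^ 2 with hν
  have hx := xp_ne (W := W) p
  have hl : v (W := W) (tX (Point.some p q h) - cK p) < 1 := by
    rcases v_tX h with ⟨-, e⟩ | ⟨-, e⟩ <;> rw [e, ← exp_zero, exp_lt_exp] <;> norm_num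
  rw [tY_sub]
  refine lt_of_le_of_lt (Valuation.map_sub _ _ _) (max_lt ?_ ?_)
  · rw [Valuation.map_neg]
    set A : W.FunctionField := lam p q * (tX (Point.some p q h) - cK p) + cK ψ with hA
    have e : (xK - cK p) ^ 3 * A = -(cK ψ * (yK ^ 2 - xK ^ 3)) + (cK μ * xK * yK + (cK ν * yK +
        (cK (q * ψ) * yK - (cK (q * μ) * xK + (cK (q * ν) + (cK (3 * p * ψ) * xK ^ 2 -
          cK (3 * p ^ 2 * ψ) * xK + cK (p ^ 3 * ψ))))))) := by
      have h1 := tX_sub h
      have h2 : lam p q * (xK - cK p) = (yK - cK q : W.FunctionField) := by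
        unfold lam; rw [div_mul_cancel₀ _ hx]
      rw [← hψ, ← hμ, ← hν] at h1
      have h3 : (xK - cK p) ^ 3 * A = (yK - cK q) * ((xK - cK p) ^ 2 *
          (tX (Point.some p q h) - cK p)) + cK ψ * (xK - cK p) ^ 3 := by
        rw [hA]
        linear_combination (xK - cK p) ^ 2 * (tX (Point.some p q h) - cK p) * h2
      rw [h3, h1]
      simp only [map_mul, map_pow, map_ofNat]
      ring
    have hv : v (W := W) ((xK - cK p) ^ 3 * A) ≤ exp 5 := by
      rw [e]
      refine (Valuation.map_add _ _ _).trans (max_le ?_ ?_)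
      · rw [Valuation.map_neg]
        refine v_mono _ ?_ le_rfl
        rw [← Valuation.map_neg, neg_sub]
        exact v_eq3
      refine (Valuation.map_add _ _ _).trans (max_le ?_ ?_)
      · rw [mul_assoc]
        exact v_mono _ (i := 5) (by rw [map_mul, v_x, v_y, ← exp_add]; norm_num) le_rfl
      refine (Valuation.map_add _ _ _).trans (max_le (v_mono _ v_y.le (by norm_num)) ?_)
      refine (Valuation.map_sub _ _ _).trans (max_le (v_mono _ v_y.le (by norm_num)) ?_)
      refine (Valuation.map_add _ _ _).trans (max_le (v_mono _ v_x.le (by norm_num)) ?_)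
      have hc : ∀ c : k, v (W := W) (cK c) ≤ exp 5 := fun c => by
        refine (v_cle _).trans ?_
        rw [← exp_zero]; exact exp_le_exp.mpr (by norm_num)
      refine (Valuation.map_add _ _ _).trans (max_le (hc _) ?_)
      refine (Valuation.map_add _ _ _).trans (max_le ((Valuation.map_sub _ _ _).trans
        (max_le ?_ ?_)) (hc _))
      · exact v_mono _ (i := 4) (by rw [map_pow, v_x, pow_two, ← exp_add]; norm_num) (by norm_num)
      · exact v_mono _ v_x.le (by norm_num)
    have h6 : v (W := W) ((xK - cK p) ^ 3) = exp 6 := by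
      rw [map_pow, v_x_sub, ← exp_nsmul]; rfl
    rw [map_mul, h6] at hv
    by_contra hge
    push Not at hge
    have h7 : (exp 6 : WithZero (Multiplicative ℤ)) ≤ exp 6 * v (W := W) A := by
      calc (exp 6 : WithZero (Multiplicative ℤ)) = exp 6 * 1 := (mul_one _).symm
        _ ≤ _ := mul_le_mul' le_rfl hge
    have h8 := h7.trans hv
    rw [exp_le_exp] at h8
    norm_num at h8
  · rw [map_mul]
    exact lt_of_le_of_lt (mul_le_mul' (v_cle _) le_rfl) (by rw [one_mul]; exact hl)

/-- the residue of a regular function at `Q` -/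
lemma rs_x : Rs (tX (Point.some p q h)) p := by
  unfold Rs
  rcases v_tX h with ⟨-, e⟩ | ⟨-, e⟩ <;> rw [e, ← exp_zero, exp_lt_exp] <;> norm_num

lemma rs_y : Rs (tY (Point.some p q h)) q := v_tY h

lemma rs_eval {u : W.FunctionField} {a : k} (hu : Rs u a) (r : k[X]) :
    Rs (r.eval₂ cK u) (r.eval a) := by
  induction r using Polynomial.induction_on' with
  | add p q hp hq => rw [eval₂_add, eval_add]; exact hp.add hq
  | monomial n c => rw [eval₂_monomial, eval_monomial]; exact (rs_c c).mul (hu.pow n)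

lemma tau_pol (a : W.Point) (r : k[X]) : tau a (r.eval₂ cK xK) = r.eval₂ cK (tX a) := by
  have h1 : ∀ u : W.FunctionField, r.eval₂ cK u = aeval u r := fun u => by
    rw [aeval_def]; rfl
  rw [h1, h1, ← tau_xK, Polynomial.aeval_algHom_apply]

end some

end Pool.Agent.RH
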