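import Pool.Agent.Lib_helper76.RH.D
import Pool.Agent.Lib_helper40.GK.GE9

/-!
# Functions which are regular outside of a finite group of points
-/

set_option autoImplicit false
set_option linter.unusedSectionVars false

namespace Pool.Agent.RH

open WeierstrassCurve.Affine UEG Polynomial WithZero GK

variable {k : Type*} [Field k] [DecidableEq k] {W : WeierstrassCurve.Affine k}

lemma hR_gen0 (r : W.CoordinateRing) : hR gen0 r = inc r := by
  have : hR (W := W) gen0 = inc := by
    apply hom_ext
    · intro c; rw [hR_c]; rfl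
    · rw [hR_x]; rfl
    · rw [hR_y]; rfl
  rw [this]

lemma inc_iP (p : k[X]) : inc (iP p : W.CoordinateRing) = p.eval₂ cK xK := by
  rw [← hR_gen0, hR_iP]; rfl

/-- regular functions without poles are constant -/
lemma const_of_le (r : W.CoordinateRing) (h : v (W := W) (inc r) ≤ 1) : ∃ c, inc r = cK c := by
  rcases eq_or_ne r 0 with rfl | hr
  · exact ⟨0, by rw [map_zero, map_zero]⟩
  obtain ⟨n, hn, hv⟩ := vR_cases hr
  rw [v_inc, hv, ← exp_zero, exp_le_exp] at h
  have hn0 : n = 0 := by omega
  subst hn0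
  obtain ⟨p, q, rfl⟩ := CoordinateRing.exists_smul_basis_eq r
  rw [D_basis] at hn
  have hq : q = 0 := by
    by_contra hq
    have h1 : 2 • q.degree + (3 : ℕ) ≤ ((0 : ℕ) : WithBot ℕ) := by
      rw [← hn]; exact le_max_right _ _
    have := deg_le_of h1 hq
    omega
  subst hq
  have hp : p.natDegree = 0 := by
    rcases eq_or_ne p 0 with rfl | hp
    · exact natDegree_zero
    have h0 : 2 • p.degree ≤ ((0 : ℕ) : WithBot ℕ) := by
      rw [← hn]; exact le_max_left _ _
    have h1 : 2 • p.degree + (0 : ℕ) ≤ ((0 : ℕ) : WithBot ℕ) := by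
      rw [Nat.cast_zero, add_zero]; exact h0
    have := deg_le_of h1 hp
    omega
  rw [eq_C_of_natDegree_eq_zero hp, inc_basis]
  exact ⟨p.coeff 0, by simp⟩

section

variable [CharZero k] [DecidableEq W.FunctionField] {H : AddSubgroup W.Point}

lemma Rs.v_lt {w : W.FunctionField} {c : k} (h : Rs w c) (hw : v (W := W) w < 1) : c = 0 :=
  h.unique (rs_of_lt hw)

/-- divisibility by `x - x(Q)` -/
lemma div_step {a b : k} (hQ : W.Nonsingular a b) {p q : k[X]}
    (h1 : v (W := W) (tau (Point.some a b hQ) (p.eval₂ cK xK + q.eval₂ cK xK * yK)) ≤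
      v (W := W) (tX (Point.some a b hQ) - cK a))
    (h2 : v (W := W) (tau (-(Point.some a b hQ)) (p.eval₂ cK xK + q.eval₂ cK xK * yK)) < 1) :
    p.eval a = 0 ∧ q.eval a = 0 := by
  have hlt : v (W := W) (tX (Point.some a b hQ) - cK a) < 1 := rs_x hQ
  have r1 : Rs (tau (Point.some a b hQ) (p.eval₂ cK xK + q.eval₂ cK xK * yK))
      (p.eval a + q.eval a * b) := by
    rw [map_add, map_mul, tau_pol, tau_pol, tau_yK]
    exact (rs_eval (rs_x hQ) p).add ((rs_eval (rs_x hQ) q).mul (rs_y hQ))
  have e1 : p.eval a + q.eval a * b = 0 := r1.v_lt (lt_of_le_of_lt h1 hlt)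
  have hQ' : W.Nonsingular a (W.negY a b) := (nonsingular_neg a b).mpr hQ
  have en : -(Point.some a b hQ) = Point.some a (W.negY a b) hQ' := Point.neg_some hQ
  rw [en] at h2
  have r2 : Rs (tau (Point.some a (W.negY a b) hQ') (p.eval₂ cK xK + q.eval₂ cK xK * yK))
      (p.eval a + q.eval a * W.negY a b) := by
    rw [map_add, map_mul, tau_pol, tau_pol, tau_yK]
    exact (rs_eval (rs_x hQ') p).add ((rs_eval (rs_x hQ') q).mul (rs_y hQ'))
  have e2 : p.eval a + q.eval a * W.negY a b = 0 := r2.v_lt h2
  have hψ : q.eval a * (2 * b + W.a₁ * a + W.a₃) = 0 := by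
    unfold WeierstrassCurve.Affine.negY at e2
    linear_combination e1 - e2
  have hq : q.eval a = 0 := by
    rcases v_tX hQ with ⟨h0, -⟩ | ⟨h0, hv⟩
    · exact (mul_eq_zero.mp hψ).resolve_right h0
    · by_contra hqa
      -- a point of order two
      set ξ : W.FunctionField := tX (Point.some a b hQ) - cK a with hξ
      set η : W.FunctionField := tY (Point.some a b hQ) - cK b with hη
      obtain ⟨s, hs⟩ : X - C a ∣ p + C b * q := by
        rw [dvd_iff_isRoot, IsRoot.def, eval_add, eval_mul, eval_C]
        linear_combination e1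
      have e3 : tau (Point.some a b hQ) (p.eval₂ cK xK + q.eval₂ cK xK * yK) =
          ξ * s.eval₂ cK (tX (Point.some a b hQ)) + q.eval₂ cK (tX (Point.some a b hQ)) * η := by
        have e4 := congrArg (fun r : k[X] => r.eval₂ cK (tX (Point.some a b hQ))) hs
        simp only [eval₂_add, eval₂_mul, eval₂_C, eval₂_sub, eval₂_X] at e4
        rw [map_add, map_mul, tau_pol, tau_pol, tau_yK]
        rw [hξ, hη]
        linear_combination e4
      have vs : v (W := W) (s.eval₂ cK (tX (Point.some a b hQ))) ≤ 1 :=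
        (rs_eval (rs_x hQ) s).le
      have rq := rs_eval (rs_x hQ) q
      have vq : v (W := W) (q.eval₂ cK (tX (Point.some a b hQ))) = 1 := by
        have e5 : q.eval₂ cK (tX (Point.some a b hQ)) = (q.eval₂ cK (tX (Point.some a b hQ)) -
          cK (q.eval a)) + cK (q.eval a) := by ring
        rw [e5, Valuation.map_add_eq_of_lt_right, v_c hqa]
        rw [v_c hqa]; exact rq
      have h3 : v (W := W) (q.eval₂ cK (tX (Point.some a b hQ)) * η) ≤ exp (-2) := by
        have e6 : q.eval₂ cK (tX (Point.some a b hQ)) * η =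
            tau (Point.some a b hQ) (p.eval₂ cK xK + q.eval₂ cK xK * yK) -
            ξ * s.eval₂ cK (tX (Point.some a b hQ)) := by rw [e3]; ring
        rw [e6]
        refine (Valuation.map_sub _ _ _).trans (max_le (by rw [← hv]; exact h1) ?_)
        rw [map_mul, hv]
        exact (mul_le_mul' le_rfl vs).trans (by rw [mul_one])
      rw [map_mul, vq, one_mul] at h3
      -- the equation of the curve
      have hE : tY (Point.some a b hQ) ^ 2 + cK W.a₁ * tX (Point.some a b hQ) *
          tY (Point.some a b hQ) + cK W.a₃ * tY (Point.some a b hQ) =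
        tX (Point.some a b hQ) ^ 3 + cK W.a₂ * tX (Point.some a b hQ) ^ 2 +
          cK W.a₄ * tX (Point.some a b hQ) + cK W.a₆ := (tG _).eq
      have hE' := congrArg (cK (W := W)) ((equation_iff _ _).mp hQ.1)
      simp only [map_add, map_mul, map_pow] at hE'
      have h0' := congrArg (cK (W := W)) h0
      simp only [map_add, map_mul, map_ofNat, map_zero] at h0'
      set μ : k := 3 * a ^ 2 + 2 * W.a₂ * a + W.a₄ - W.a₁ * b with hμ
      have hμ0 : μ ≠ 0 := by
        rcases ((nonsingular_iff' _ _).mp hQ).2 with h2 | h2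
        · intro h3
          apply h2
          linear_combination -h3
        · exact absurd h0 h2
      have e7 : cK μ * ξ = η ^ 2 + cK W.a₁ * ξ * η - cK (3 * a + W.a₂) * ξ ^ 2 - ξ ^ 3 := by
        rw [hμ, hξ, hη]
        simp only [map_add, map_sub, map_mul, map_pow, map_ofNat]
        linear_combination -hE + hE' + (tY (Point.some a b hQ) - cK b) * h0'
      have v1 : v (W := W) (cK μ * ξ) = exp (-2) := by rw [map_mul, v_c hμ0, one_mul, hv]
      have v2 : v (W := W) (η ^ 2 + cK W.a₁ * ξ * η - cK (3 * a + W.a₂) * ξ ^ 2 - ξ ^ 3) ≤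
          exp (-3) := by
        have le3 : ∀ {i : ℤ}, i ≤ -3 → (exp i : WithZero (Multiplicative ℤ)) ≤ exp (-3) :=
          fun hi => exp_le_exp.mpr hi
        refine (Valuation.map_sub _ _ _).trans (max_le ((Valuation.map_sub _ _ _).trans (max_le
          ((Valuation.map_add _ _ _).trans (max_le ?_ ?_)) ?_)) ?_)
        · rw [map_pow, pow_two]
          exact (mul_le_mul' h3 h3).trans (by rw [← exp_add]; exact le3 (by norm_num))
        · rw [mul_assoc]
          refine v_mono _ (i := -4) ?_ (by norm_num)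
          rw [map_mul, hv]
          exact (mul_le_mul' le_rfl h3).trans (by rw [← exp_add]; norm_num)
        · refine v_mono _ (i := -4) ?_ (by norm_num)
          rw [map_pow, hv, ← exp_nsmul]; exact exp_le_exp.mpr (by norm_num)
        · rw [map_pow, hv, ← exp_nsmul]; exact exp_le_exp.mpr (by norm_num)
      rw [← e7, v1, exp_le_exp] at v2
      norm_num at v2
  refine ⟨?_, hq⟩
  rw [hq, zero_mul, add_zero] at e1
  exact e1

end

end Pool.Agent.RH
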