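import Pool.Agent.Lib_helper76.RH.E

/-!
# The Riemann-Hurwitz bound for functions supported on a finite group of points
-/

set_option autoImplicit false
set_option linter.unusedSectionVars false

namespace Pool.Agent.RH

open WeierstrassCurve.Affine UEG Polynomial WithZero GK

variable {k : Type*} [Field k] [DecidableEq k] {W : WeierstrassCurve.Affine k}
variable [CharZero k] [DecidableEq W.FunctionField] {H : AddSubgroup W.Point}

/-- the product of the `x - a` -/
noncomputable def PM (M : Multiset k) : W.FunctionField := (M.map (fun a => xK - cK a)).prod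

lemma PM_cons (a : k) (M : Multiset k) : PM (a ::ₘ M) = (xK - cK a) * PM (W := W) M := by
  unfold PM; rw [Multiset.map_cons, Multiset.prod_cons]

lemma PM_zero : PM (0 : Multiset k) = (1 : W.FunctionField) := by
  unfold PM; rw [Multiset.map_zero, Multiset.prod_zero]

lemma PM_iP (M : Multiset k) :
    inc (iP (M.map (fun a => X - C a)).prod : W.CoordinateRing) = PM M := by
  induction M using Multiset.induction_on with
  | empty => rw [Multiset.map_zero, Multiset.prod_zero, map_one, map_one, PM_zero]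
  | cons a M ih =>
    rw [Multiset.map_cons, Multiset.prod_cons, map_mul, map_mul, ih, PM_cons, inc_iP]
    simp only [eval₂_sub, eval₂_X, eval₂_C]

lemma v_tau_x_sub_le (a : W.Point) (c : k) (ha : a ≠ 0) :
    v (W := W) (tau a (xK - cK c)) ≤ 1 := by
  rcases a with _ | ⟨p, q, h⟩
  · exact absurd rfl ha
  rw [map_sub, tau_c, tau_xK]
  refine (Valuation.map_sub _ _ _).trans (max_le (rs_x h).le (v_cle c))

lemma v_tau_PM_le (a : W.Point) (M : Multiset k) (ha : a ≠ 0) :
    v (W := W) (tau a (PM M)) ≤ 1 := by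
  induction M using Multiset.induction_on with
  | empty => rw [PM_zero, map_one, map_one]
  | cons c M ih =>
    rw [PM_cons, map_mul, map_mul]
    exact (mul_le_mul' (v_tau_x_sub_le a c ha) ih).trans (by rw [mul_one])

/-- **a function which is regular outside of `H` and at the points of `H` is constant** -/
theorem const_of_reg {w : W.FunctionField} (hw : w ∈ RR H xK yK)
    (hv : ∀ a ∈ H, v (W := W) (tau a w) ≤ 1) : ∃ c, w = cK c := by
  obtain ⟨M, hM, r, hr⟩ := mem_RR gen0 hw
  rw [hR_gen0, hR_gen0, PM_iP] at hr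
  clear hw
  induction M using Multiset.induction_on generalizing r with
  | empty =>
    rw [PM_zero, mul_one] at hr
    have h0 := hv 0 H.zero_mem
    rw [tau_zero, hr] at h0
    obtain ⟨c, hc⟩ := const_of_le r h0
    exact ⟨c, hr.trans hc⟩
  | cons a M ih =>
    obtain ⟨b, hb, hab⟩ := hM a (Multiset.mem_cons_self a M)
    have hQ0 : (Point.some a b hb : W.Point) ≠ 0 := Point.some_ne_zero _
    obtain ⟨p, q, hpq⟩ := CoordinateRing.exists_smul_basis_eq r
    have er : inc r = p.eval₂ cK xK + q.eval₂ cK xK * yK := by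
      rw [← inc_basis, hpq]
    have e1 : w * PM (a ::ₘ M) = w * PM M * (xK - cK a) := by rw [PM_cons]; ring
    have hle : ∀ Q ∈ H, Q ≠ 0 → v (W := W) (tau Q (inc r)) ≤ v (W := W) (tau Q (xK - cK a)) := by
      intro Q hQ hQ0
      rw [← hr, e1, map_mul, map_mul, map_mul, map_mul]
      calc v (W := W) (tau Q w) * v (W := W) (tau Q (PM M)) * v (W := W) (tau Q (xK - cK a))
          ≤ 1 * 1 * v (W := W) (tau Q (xK - cK a)) :=
            mul_le_mul' (mul_le_mul' (hv Q hQ) (v_tau_PM_le Q M hQ0)) le_rfl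
        _ = _ := by rw [one_mul, one_mul]
    have h1 := hle _ hab hQ0
    have h2 := hle _ (H.neg_mem hab) (neg_ne_zero.mpr hQ0)
    rw [er] at h1 h2
    have h3 : v (W := W) (tau (-(Point.some a b hb)) (xK - cK a)) < 1 := by
      have hQ' : W.Nonsingular a (W.negY a b) := (nonsingular_neg a b).mpr hb
      have en : -(Point.some a b hb) = Point.some a (W.negY a b) hQ' := Point.neg_some hb
      rw [en, map_sub, tau_c, tau_xK]
      exact rs_x hQ'
    have h4 : v (W := W) (tau (Point.some a b hb) (xK - cK a)) =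
        v (W := W) (tX (Point.some a b hb) - cK a) := by rw [map_sub, tau_c, tau_xK]
    rw [h4] at h1
    obtain ⟨hp, hq⟩ := div_step hb h1 (lt_of_le_of_lt h2 h3)
    obtain ⟨p', hp'⟩ := dvd_iff_isRoot.mpr (IsRoot.def.mpr hp)
    obtain ⟨q', hq'⟩ := dvd_iff_isRoot.mpr (IsRoot.def.mpr hq)
    refine ih (fun c hc => hM c (Multiset.mem_cons_of_mem hc))
      (p' • (1 : W.CoordinateRing) + q' • CoordinateRing.mk W X) ?_
    apply mul_right_cancel₀ (xp_ne (W := W) a)
    rw [← e1, hr, er, hp', hq', inc_basis]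
    simp only [eval₂_mul, eval₂_sub, eval₂_X, eval₂_C]
    ring

/-! ### stability -/

lemma mem_x : (xK : W.FunctionField) ∈ RR H xK yK :=
  Algebra.subset_adjoin (Or.inl (Or.inl rfl))

lemma mem_y : (yK : W.FunctionField) ∈ RR H xK yK :=
  Algebra.subset_adjoin (Or.inl (Or.inr rfl))

lemma mem_c (c : k) : (cK c : W.FunctionField) ∈ RR H xK yK :=
  Subalgebra.algebraMap_mem _ c

lemma mem_inv {a b : k} (h : inH H a b) : (xK - cK a : W.FunctionField)⁻¹ ∈ RR H xK yK :=
  Algebra.subset_adjoin (Or.inr ⟨a, b, h, rfl⟩)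

lemma mem_sub' {u w : W.FunctionField} (hu : u ∈ RR H xK yK) (hw : w ∈ RR H xK yK) :
    u - w ∈ RR H xK yK := sub_mem hu hw

lemma mem_dx : (UEG.dx : W.FunctionField) ∈ RR H xK yK := by
  unfold UEG.dx
  refine add_mem (add_mem (mul_mem ?_ mem_y) (mul_mem (mem_c _) mem_x)) (mem_c _)
  have : (2 : W.FunctionField) = cK 2 := (map_ofNat _ 2).symm
  rw [this]; exact mem_c _

lemma mem_dy : (UEG.dy : W.FunctionField) ∈ RR H xK yK := by
  unfold UEG.dy
  have e2 : (2 : W.FunctionField) = cK 2 := (map_ofNat _ 2).symm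
  have e3 : (3 : W.FunctionField) = cK 3 := (map_ofNat _ 3).symm
  rw [e2, e3]
  exact mem_sub' (add_mem (add_mem (mul_mem (mem_c _) (pow_mem mem_x 2))
    (mul_mem (mul_mem (mem_c _) (mem_c _)) mem_x)) (mem_c _)) (mul_mem (mem_c _) mem_y)

/-- the derivation -/
theorem dv_mem {w : W.FunctionField} (hw : w ∈ RR H xK yK) : dv w ∈ RR H xK yK := by
  have key : w ∈ RR H xK yK ∧ dv w ∈ RR H xK yK := by
    unfold UEG.RR at hw
    induction hw using Algebra.adjoin_induction with
    | mem u hu =>
      rcases hu with (rfl | rfl) | ⟨a, b, hab, rfl⟩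
      · exact ⟨mem_x, by rw [dv_x]; exact mem_dx⟩
      · exact ⟨mem_y, by rw [dv_y]; exact mem_dy⟩
      · refine ⟨mem_inv hab, ?_⟩
        have hx := xp_ne (W := W) a
        have e : dv (xK - algebraMap k W.FunctionField a)⁻¹ =
            -(UEG.dx * ((xK - cK a : W.FunctionField)⁻¹ * (xK - cK a)⁻¹)) := by
          have e1 : (xK - algebraMap k W.FunctionField a) = xK - cK a := rfl
          rw [e1, dv_inv hx, dv_sub, dv_x, dv_c, sub_zero]
          field_simp
        rw [e]
        exact neg_mem (mul_mem mem_dx (mul_mem (mem_inv hab) (mem_inv hab)))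
    | algebraMap c =>
      refine ⟨mem_c c, ?_⟩
      have : dv (algebraMap k W.FunctionField c) = 0 := dv_c c
      rw [this]; exact zero_mem _
    | add u w _ _ hu hw => exact ⟨add_mem hu.1 hw.1, by rw [dv_add]; exact add_mem hu.2 hw.2⟩
    | mul u w _ _ hu hw =>
      exact ⟨mul_mem hu.1 hw.1, by
        rw [dv_mul]; exact add_mem (mul_mem hu.1 hw.2) (mul_mem hw.1 hu.2)⟩
  exact key.2

lemma mem_tX {a : W.Point} (ha : a ∈ H) (ha0 : a ≠ 0) :
    tX a ∈ RR H xK yK ∧ tY a ∈ RR H xK yK := by
  rcases a with _ | ⟨p, q, h⟩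
  · exact absurd rfl ha0
  have hl : (lam p q : W.FunctionField) ∈ RR H xK yK := by
    unfold lam
    rw [div_eq_mul_inv]
    exact mul_mem (mem_sub' mem_y (mem_c _)) (mem_inv ⟨h, ha⟩)
  have hX : tX (Point.some p q h) ∈ RR H xK yK := by
    rw [(tX_some h).1]
    exact mem_sub' (mem_sub' (mem_sub' (add_mem (pow_mem hl 2) (mul_mem (mem_c _) hl)) (mem_c _))
      mem_x) (mem_c _)
  refine ⟨hX, ?_⟩
  rw [(tX_some h).2]
  exact mem_sub' (mem_sub' (neg_mem (add_mem (mul_mem hl (mem_sub' hX mem_x)) mem_y))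
    (mul_mem (mem_c _) hX)) (mem_c _)

lemma dx_zz {X Y : W.FunctionField} (h : Gen W X Y) {p q : k} (hp : W.Nonsingular p q) :
    K4M.dx (zz h) (bK (Point.some p q hp)) = X - cK p := by
  rw [dx_ne h (Point.some_ne_zero _)]
  rfl

/-- the translations -/
theorem tau_mem {a : W.Point} (ha : a ∈ H) {w : W.FunctionField} (hw : w ∈ RR H xK yK) :
    tau a w ∈ RR H xK yK := by
  rcases eq_or_ne a 0 with rfl | ha0
  · rwa [tau_zero]
  unfold UEG.RR at hw
  induction hw using Algebra.adjoin_induction with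
  | mem u hu =>
    rcases hu with (rfl | rfl) | ⟨p, q, ⟨h, hc⟩, rfl⟩
    · rw [tau_xK]; exact (mem_tX ha ha0).1
    · rw [tau_yK]; exact (mem_tX ha ha0).2
    · set c : W.Point := Point.some p q h with hcd
      have hc0 : c ≠ 0 := Point.some_ne_zero _
      obtain ⟨δ, hδ, e⟩ := par_gen (F := W.FunctionField) gen0 a c hc0
      have z1 : zz (gen0 (W := W)) + bc W.FunctionField W a = zz (tG a) := (tZ a).symm
      have z2 : zz (gen0 (W := W)) - bc W.FunctionField W a = zz (tG (-a)) := by
        have := tZ (-a)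
        rw [this, map_neg, sub_eq_add_neg]; rfl
      rw [z1, z2] at e
      have d1 : K4M.dx (zz (tG a)) (bc W.FunctionField W c) = tX a - cK p := dx_zz (tG a) h
      have d2 : K4M.dx (zz (tG (-a))) (bc W.FunctionField W c) = tX (-a) - cK p :=
        dx_zz (tG (-a)) h
      rw [d1, d2] at e
      have dinv : ∀ d ∈ H, (K4M.dx (zz (gen0 (W := W))) (bc W.FunctionField W d))⁻¹ ∈
          RR H xK yK ∧ K4M.dx (zz (gen0 (W := W))) (bc W.FunctionField W d) ∈ RR H xK yK := by
        intro d hd
        rcases d with _ | ⟨p', q', h'⟩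
        · have : K4M.dx (zz (gen0 (W := W))) (bc W.FunctionField W (Point.zero : W.Point)) = -1 :=
            dx_zero gen0
          rw [this, inv_neg, inv_one]
          exact ⟨neg_mem (one_mem _), neg_mem (one_mem _)⟩
        · have : K4M.dx (zz (gen0 (W := W))) (bc W.FunctionField W (Point.some p' q' h')) =
            xK - cK p' := dx_zz gen0 h'
          rw [this]
          exact ⟨mem_inv ⟨h', hd⟩, mem_sub' mem_x (mem_c _)⟩
      have ne1 := D_ne (gen0 (W := W)) a
      have ne2 := D_ne (gen0 (W := W)) (a + c)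
      have ne3 := D_ne (gen0 (W := W)) (a - c)
      have ne4 : (tX a - cK p : W.FunctionField) ≠ 0 := by
        rw [← d1]; exact D_ne _ _
      have nδ : (algebraMap k W.FunctionField δ) ≠ 0 := (_root_.map_ne_zero _).mpr hδ
      have e2 : tau a (xK - algebraMap k W.FunctionField p)⁻¹ = (tX (-a) - cK p) *
          K4M.dx (zz (gen0 (W := W))) (bc W.FunctionField W a) ^ 2 * (cK δ⁻¹ *
          ((K4M.dx (zz (gen0 (W := W))) (bc W.FunctionField W (a + c)))⁻¹ *
          (K4M.dx (zz (gen0 (W := W))) (bc W.FunctionField W (a - c)))⁻¹)) := by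
        have e3 : tau a (xK - algebraMap k W.FunctionField p)⁻¹ = (tX a - cK p)⁻¹ := by
          rw [map_inv₀, map_sub, tau_xK]
          congr 2
          exact tau_c a p
        have e4 : (cK δ⁻¹ : W.FunctionField) = (algebraMap k W.FunctionField δ)⁻¹ := map_inv₀ _ _
        rw [e3, e4, inv_eq_one_div, div_eq_iff ne4]
        field_simp
        linear_combination -e
      rw [e2]
      refine mul_mem (mul_mem (mem_sub' ?_ (mem_c _)) (pow_mem (dinv a ha).2 2))
        (mul_mem (mem_c _) (mul_mem (dinv _ (H.add_mem ha hc)).1 (dinv _ (H.sub_mem ha hc)).1))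
      exact (mem_tX (H.neg_mem ha) (neg_ne_zero.mpr ha0)).1
  | algebraMap c =>
    have : tau a (algebraMap k W.FunctionField c) = cK c := tau_c a c
    rw [this]; exact mem_c c
  | add u w _ _ hu hw => rw [map_add]; exact add_mem hu hw
  | mul u w _ _ hu hw => rw [map_mul]; exact mul_mem hu hw

end Pool.Agent.RH
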