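import Pool.Agent.Lib_helper76.RH.F

/-!
# The Riemann-Hurwitz bound for functions supported on a finite group of points
-/

set_option autoImplicit false
set_option linter.unusedSectionVars false

namespace Pool.Agent.RH

open WeierstrassCurve.Affine UEG Polynomial WithZero GK

variable {k : Type*} [Field k] [DecidableEq k] {W : WeierstrassCurve.Affine k}
variable [CharZero k] [DecidableEq W.FunctionField] {H : AddSubgroup W.Point}

lemma exp_sum {ι : Type*} (s : Finset ι) (n : ι → ℤ) :
    ∏ i ∈ s, (exp (n i) : WithZero (Multiplicative ℤ)) = exp (∑ i ∈ s, n i) := by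
  classical
  induction s using Finset.induction_on with
  | empty => rw [Finset.prod_empty, Finset.sum_empty, exp_zero]
  | insert i s hi ih => rw [Finset.prod_insert hi, Finset.sum_insert hi, ih, exp_add]

/-- **the sum of the orders at the points of `H` is at most zero** -/
theorem degree_le [Fintype H] {w : W.FunctionField} (hw : w ∈ RR H xK yK) (h0 : w ≠ 0)
    {n : H → ℤ} (hn : ∀ a : H, v (W := W) (tau (a : W.Point) w) = exp (-(n a))) :
    ∑ a, n a ≤ 0 := by
  by_contra hpos
  push Not at hpos
  set N : W.FunctionField := ∏ b : H, tau (b : W.Point) w with hN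
  have hNm : N ∈ RR H xK yK := prod_mem fun b _ => tau_mem b.2 hw
  have hN0 : N ≠ 0 := Finset.prod_ne_zero_iff.mpr fun b _ => tau_ne _ h0
  have hvN : v (W := W) N = exp (-(∑ a, n a)) := by
    rw [hN, map_prod, Finset.prod_congr rfl fun b _ => hn b, exp_sum, Finset.sum_neg_distrib]
  have hinv : ∀ a ∈ H, tau a N = N := by
    intro a ha
    rw [hN, map_prod]
    simp only [tau_tau]
    exact Fintype.prod_equiv (Equiv.addLeft (⟨a, ha⟩ : H)) _ _ fun b => rfl
  obtain ⟨c, hc⟩ := const_of_reg hNm (fun a ha => by
    rw [hinv a ha, hvN, ← exp_zero, exp_le_exp]; omega)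
  have hc0 : c ≠ 0 := by
    rintro rfl
    exact hN0 (hc.trans (map_zero _))
  rw [hc, v_c hc0, ← exp_zero] at hvN
  have := exp_injective hvN
  omega

/-- the derivative of a function which is not constant -/
lemma dv_ne_zero {f : W.FunctionField} (hf : f ∈ RR H xK yK) (hc : ∀ c, f ≠ cK c) :
    dv f ≠ 0 := by
  intro h0
  obtain ⟨a, ha, hv⟩ : ∃ a ∈ H, 1 < v (W := W) (tau a f) := by
    by_contra hno
    push Not at hno
    obtain ⟨c, hc'⟩ := const_of_reg hf hno
    exact hc c hc'
  have hf0 : tau a f ≠ 0 := by
    intro h1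
    rw [h1, map_zero] at hv
    exact absurd hv (not_lt.mpr zero_le_one)
  obtain ⟨n, hn⟩ := exists_exp hf0
  rw [hn, ← exp_zero, exp_lt_exp] at hv
  have h1 := v_dv_eq hn (by exact_mod_cast hv.ne')
  rw [dv_tau, h0, map_zero, map_zero] at h1
  exact exp_ne_zero h1.symm

/-- **the Riemann-Hurwitz bound**: for `f + g = 1`, both supported on `H`, the ramification of `f`
over `1` is at most the number of zeros and poles of `f` -/
theorem rh [Fintype H] {f g : W.FunctionField} (hf : IsUn H xK yK f) (hg : IsUn H xK yK g)
    (h : f + g = 1) (hc : ∀ c, f ≠ cK c) {m m' : H → ℤ}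
    (hm : ∀ a : H, v (W := W) (tau (a : W.Point) f) = exp (-(m a)))
    (hm' : ∀ a : H, v (W := W) (tau (a : W.Point) g) = exp (-(m' a))) :
    ∑ a, (if 0 < m' a then m' a - 1 else 0) ≤ ∑ a, (if m a ≠ 0 then 1 else 0) := by
  have hd := dv_ne_zero hf.2.1 hc
  set w : W.FunctionField := dv f * f⁻¹ with hw
  have hwm : w ∈ RR H xK yK := mul_mem (dv_mem hf.2.1) hf.2.2
  have hw0 : w ≠ 0 := mul_ne_zero hd (inv_ne_zero hf.1)
  choose n hn using fun a : H => exists_exp (tau_ne (a : W.Point) hw0)
  have hn' : ∀ a : H, v (W := W) (tau (a : W.Point) w) = exp (-(-n a)) := fun a => by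
    rw [hn a, neg_neg]
  have hdeg := degree_le hwm hw0 hn'
  have htw : ∀ a : W.Point, tau a w = dv (tau a f) * (tau a f)⁻¹ := fun a => by
    rw [hw, map_mul, map_inv₀, dv_tau]
  have hlow : ∀ a : H, (if 0 < m' a then m' a - 1 else 0) - (if m a ≠ 0 then 1 else 0) ≤
      -n a := by
    intro a
    have hva := hn a
    rw [htw, map_mul, map_inv₀, hm a, ← exp_neg, neg_neg] at hva
    have hfg : tau (a : W.Point) f + tau (a : W.Point) g = 1 := by rw [← map_add, h, map_one]
    by_cases h1 : 0 < m' a
    · -- a zero of `g`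
      have hg1 : v (W := W) (tau (a : W.Point) g) < 1 := by
        rw [hm' a, ← exp_zero, exp_lt_exp]; omega
      have hf1 : v (W := W) (tau (a : W.Point) f) = 1 := by
        have e : tau (a : W.Point) f = 1 - tau (a : W.Point) g := by rw [← hfg]; ring
        rw [e, Valuation.map_sub_eq_of_lt_left _ (by rw [map_one]; exact hg1), map_one]
      have hma : m a = 0 := by
        have := hf1
        rw [hm a, ← exp_zero] at this
        have := exp_injective this
        omega
      rw [if_pos h1, hma, if_neg (by simp)]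
      have e1 : dv (tau (a : W.Point) f) = - dv (tau (a : W.Point) g) := by
        have := congrArg dv hfg
        rw [dv_add, dv_one] at this
        linear_combination this
      have h2 := v_dv_le (tau (a : W.Point) g)
      rw [hm' a, ← exp_add] at h2
      rw [e1, Valuation.map_neg, hma, exp_zero, mul_one] at hva
      rw [hva, exp_le_exp] at h2
      omega
    · rw [if_neg h1]
      by_cases h2 : m a = 0
      · rw [h2, if_neg (by simp)]
        have h3 : v (W := W) (tau (a : W.Point) f) ≤ 1 := by
          rw [hm a, h2, neg_zero, exp_zero]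
        have h4 := v_dv_reg h3
        rw [h2, exp_zero, mul_one] at hva
        rw [hva, ← exp_zero, exp_le_exp] at h4
        omega
      · rw [if_pos h2]
        have h3 := v_dv_le (tau (a : W.Point) f)
        rw [hm a, ← exp_add] at h3
        have h4 : v (W := W) (dv (tau (a : W.Point) f)) * exp (m a) ≤
            exp (-m a + 1) * exp (m a) := mul_le_mul' h3 le_rfl
        rw [hva, ← exp_add, exp_le_exp] at h4
        omega
  have hsum := Finset.sum_le_sum fun (a : H) (_ : a ∈ Finset.univ) => hlow a
  rw [Finset.sum_sub_distrib] at hsum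
  omega

end Pool.Agent.RH
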